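import Pool.Agent.H458R3.RandB

/-!
# Adding `λ` random reals destroys the polarized relation at every uncountable `κ ≤ λ`

Random forcing consists of the measurable subsets of `2 ^ (λ × ω)` that do not have measure zero for
the product measure, ordered by inclusion modulo null sets. For every uncountable set `X` with
`|X| ≤ λ` it is forced that the strong polarized relation `(|X|, ω) → (|X|, ω)` fails, whether or
not it holds in the ground model. In particular it is forced that the relation fails at the
dominating number of the ground model if `λ` is at least this number; random forcing is
`ω^ω`-bounding and has the countable chain condition, so this is the dominating number of the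
extension.

Proof. Let `r_α` be the random real number `α`, and let `c (α, n) = r_α (n)`. A name of an infinite
set `B ⊆ ω` only involves the coordinates in `C × ω` for a countable set `C ⊆ λ`. If `α ∉ C` then
by Fubini's theorem `r_α` is not constant on `B`, because for a fixed infinite set `N` the set of the
reals that are constant on `N` has measure zero. So if `c` is constant on `A × B` then `A ⊆ C`.
-/

namespace Pool.Agent.Results.MP_95a70f_lc.RandomRealsDestroy

open Cardinal
open Pool.Agent.Helper669.Forcing Pool.Agent.H458R3.Rand

universe u v

/-- Let `X` be uncountable and `|X| ≤ |Λ|`. Then every condition of the forcing which adds `|Λ|`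
random reals forces that the strong polarized relation fails for `|X|` and `ω`: there is a colouring
of `X × ω` with two colours which is not constant on `A × B` for any set `A ⊆ X` of the same
cardinality as `X` and any infinite set `B ⊆ ω` of the extension. -/
theorem result (Λ : Type u) (X : Type v) (hX : ℵ₀ < #X)
    (h : Cardinal.lift.{u} #X ≤ Cardinal.lift.{v} #Λ) (p : RandomForcing Λ) :
    p ∈ fnot (Polarized (RandomForcing Λ) X ℕ) := by
  obtain ⟨ι⟩ := Cardinal.lift_mk_le'.1 h
  refine not_polarized (fun hc => ?_) ι ι.injective p
  exact absurd (Cardinal.mk_le_aleph0_iff.2 hc) (not_le.2 hX)

end Pool.Agent.Results.MP_95a70f_lc.RandomRealsDestroy
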